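import Pool.Agent.W945.Pw.Stm2

set_option autoImplicit false

namespace Pool.Agent.W816.Pw.TREE

open Pool.Agent.W945.Pw Finset

theorem T_le {s : ℕ} (R : Fin s → Fin s → Prop) (π : Fin s → Fin s)
    (hR : ∀ u v, R u v → v = π u ∧ u < v) {u v : Fin s} (h : Relation.ReflTransGen R u v) :
    u ≤ v := by
  induction h with
  | refl => exact le_rfl
  | tail _ h2 ih => exact ih.trans (hR _ _ h2).2.le

theorem T_iff {s : ℕ} (R : Fin s → Fin s → Prop) (π : Fin s → Fin s)
    (hR : ∀ u v, R u v → v = π u ∧ u < v) {u w v : Fin s} (h : R u w) (hv : v ≠ u) :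
    Relation.ReflTransGen R u v ↔ Relation.ReflTransGen R w v := by
  constructor
  · intro h1
    rcases Relation.ReflTransGen.cases_head h1 with h2 | ⟨c, h2, h3⟩
    · exact absurd h2.symm hv
    · have e1 := (hR _ _ h2).1
      have e2 := (hR _ _ h).1
      rw [e2, ← e1]
      exact h3
  · intro h1
    exact Relation.ReflTransGen.head h h1

theorem fin_step (hG : GROUP.Stm) {s : ℕ} (R : Fin s → Fin s → Prop) (W X S : Finset (Fin s))
    (ι : Fin s → ℕ) (hX : X ⊆ W) (hW : ∀ v, v ∈ W ↔ v ∈ X ∨ v ∈ S) (hS : S.card ≤ 1)
    (hf : ∀ k, 2 * (X.filter fun u => ι u = k).card ≤ W.card)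
    (hι : ∀ u ∈ X, ∀ w ∈ X, R u w → ι u = ι w) :
    ∃ A S B : Finset (Fin s),
    (∀ v, v ∈ W ↔ v ∈ A ∨ v ∈ S ∨ v ∈ B) ∧
    (∀ u ∈ A, ∀ v ∈ B, u ≠ v ∧ ¬ R u v ∧ ¬ R v u) ∧
    (A.card : ℝ) ≤ (2 / 3 : ℝ) * W.card ∧ (B.card : ℝ) ≤ (2 / 3 : ℝ) * W.card ∧
    (S.card : ℝ) ≤ 1 * (W.card : ℝ) ^ (0 : ℝ) := by
  obtain ⟨P, h1, h2⟩ := hG (Fin s) W X ι hX hf
  refine ⟨X.filter fun u => P (ι u) = true, S, X.filter fun u => P (ι u) = false, ?_, ?_, ?_, ?_, ?_⟩
  · intro v
    rw [hW v, mem_filter, mem_filter]
    cases P (ι v) <;> simp <;> tauto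
  · intro u hu v hv
    rw [mem_filter] at hu hv
    refine ⟨?_, ?_, ?_⟩
    · rintro rfl
      rw [hu.2] at hv
      exact absurd hv.2 (by simp)
    · intro h
      have h3 := hι u hu.1 v hv.1 h
      rw [h3, hv.2] at hu
      exact absurd hu.2 (by simp)
    · intro h
      have h3 := hι v hv.1 u hu.1 h
      rw [h3, hu.2] at hv
      exact absurd hv.2 (by simp)
  · have h3 : (3 : ℝ) * ((X.filter fun u => P (ι u) = true).card : ℝ) ≤ 2 * (W.card : ℝ) := by
      exact_mod_cast h1
    linarith
  · have h3 : (3 : ℝ) * ((X.filter fun u => P (ι u) = false).card : ℝ) ≤ 2 * (W.card : ℝ) := by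
      exact_mod_cast h2
    linarith
  · rw [Real.rpow_zero, one_mul]
    exact_mod_cast hS

theorem main : TREE.Stm := by
  intro hG s R π hR W hW
  classical
  by_cases hv : ∃ v : Fin s, W.card < 2 * (W.filter fun u => Relation.ReflTransGen R u v).card
  · -- the smallest vertex with many descendants
    obtain ⟨v, hv1, hv2⟩ : ∃ v : Fin s,
        W.card < 2 * (W.filter fun u => Relation.ReflTransGen R u v).card ∧
        ∀ c < v, ¬ W.card < 2 * (W.filter fun u => Relation.ReflTransGen R u c).card := by
      obtain ⟨v, hv1, hv2⟩ := WellFounded.has_min (wellFounded_lt (α := Fin s))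
        {v | W.card < 2 * (W.filter fun u => Relation.ReflTransGen R u v).card} hv
      exact ⟨v, hv1, fun c hc h => hv2 c h hc⟩
    let Pr : Fin s → ℕ → Prop := fun u c => ∃ hc : c < s, R ⟨c, hc⟩ v ∧
      Relation.ReflTransGen R u ⟨c, hc⟩
    let ι : Fin s → ℕ := fun u => if h : ∃ c, Pr u c then Nat.find h + 1 else 0
    refine fin_step hG R W (W.filter fun u => u ≠ v) (W.filter fun u => u = v) ι
      (filter_subset _ _) ?_ ?_ ?_ ?_
    · intro x
      rw [mem_filter, mem_filter]
      tauto
    · rw [card_le_one]
      intro a ha b hb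
      rw [(mem_filter.1 ha).2, (mem_filter.1 hb).2]
    · intro k
      rcases Nat.eq_zero_or_pos k with rfl | hk
      · have h1 : (((W.filter fun u => u ≠ v).filter fun u => ι u = 0)).card +
            (W.filter fun u => Relation.ReflTransGen R u v).card ≤ W.card := by
          rw [← card_union_of_disjoint]
          · refine card_le_card (union_subset ?_ (filter_subset _ _))
            exact (filter_subset _ _).trans (filter_subset _ _)
          · rw [disjoint_left]
            intro u hu hu'
            rw [mem_filter, mem_filter] at hu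
            have h2 := (mem_filter.1 hu').2
            rcases Relation.ReflTransGen.cases_tail h2 with h3 | ⟨c, h3, h4⟩
            · exact hu.1.2 h3.symm
            · have h5 : ∃ c, Pr u c := ⟨c.val, c.isLt, h4, h3⟩
              have h6 : ι u = Nat.find h5 + 1 := dif_pos h5
              rw [h6] at hu
              exact absurd hu.2 (by omega)
        omega
      · rcases Finset.eq_empty_or_nonempty ((W.filter fun u => u ≠ v).filter fun u => ι u = k)
          with h0 | ⟨u0, hu0⟩
        · rw [h0, card_empty]
          omega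
        · have key : ∀ u, ι u = k → Pr u (k - 1) := by
            intro u hu
            by_cases h5 : ∃ c, Pr u c
            · have h6 : ι u = Nat.find h5 + 1 := dif_pos h5
              have h7 : Nat.find h5 = k - 1 := by omega
              rw [← h7]
              exact Nat.find_spec h5
            · have h6 : ι u = 0 := dif_neg h5
              omega
          obtain ⟨hc, hc1, hc2⟩ := key u0 (mem_filter.1 hu0).2
          have h1 : ((W.filter fun u => u ≠ v).filter fun u => ι u = k) ⊆
              W.filter fun u => Relation.ReflTransGen R u ⟨k - 1, hc⟩ := by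
            intro u hu
            rw [mem_filter, mem_filter] at hu
            obtain ⟨_, _, h3⟩ := key u hu.2
            exact mem_filter.2 ⟨hu.1.1, h3⟩
          have h2 := card_le_card h1
          have h3 := hv2 ⟨k - 1, hc⟩ (hR _ _ hc1).2
          omega
    · intro u hu w hw h
      have h1 : w ≠ v := (mem_filter.1 hw).2
      have h2 : ∀ c, Pr u c ↔ Pr w c := by
        intro c
        constructor
        · rintro ⟨hc, hc1, hc2⟩
          refine ⟨hc, hc1, ?_⟩
          have h3 : (⟨c, hc⟩ : Fin s) ≠ u := by
            intro h4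
            rw [h4] at hc1
            exact h1 (((hR _ _ h).1).trans ((hR _ _ hc1).1).symm)
          exact (T_iff R π hR h h3).1 hc2
        · rintro ⟨hc, hc1, hc2⟩
          exact ⟨hc, hc1, Relation.ReflTransGen.head h hc2⟩
      have h3 : Pr u = Pr w := funext fun c => propext (h2 c)
      show (if h : ∃ c, Pr u c then Nat.find h + 1 else 0) =
        if h : ∃ c, Pr w c then Nat.find h + 1 else 0
      by_cases h5 : ∃ c, Pr u c
      · have h6 : ∃ c, Pr w c := by rw [← h3]; exact h5
        rw [dif_pos h5, dif_pos h6]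
        congr 1
        exact Nat.find_congr' (fun {n} => h2 n)
      · have h6 : ¬ ∃ c, Pr w c := by rw [← h3]; exact h5
        rw [dif_neg h5, dif_neg h6]
  · push Not at hv
    let ι : Fin s → ℕ := fun u =>
      (univ.filter fun v => Relation.ReflTransGen R u v).sup fun v => v.val
    refine fin_step hG R W W ∅ ι (Finset.Subset.refl _) (by simp) (by simp) ?_ ?_
    · intro k
      rcases Finset.eq_empty_or_nonempty (W.filter fun u => ι u = k) with h0 | ⟨u0, hu0⟩
      · rw [h0, card_empty]
        omega
      · have key : ∀ u, ι u = k → ∃ v : Fin s, v.val = k ∧ Relation.ReflTransGen R u v := by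
          intro u hu
          obtain ⟨v, hv1, hv2⟩ := Finset.exists_mem_eq_sup
            (univ.filter fun v => Relation.ReflTransGen R u v)
            ⟨u, mem_filter.2 ⟨mem_univ _, Relation.ReflTransGen.refl⟩⟩ (fun v => v.val)
          exact ⟨v, hv2.symm.trans hu, (mem_filter.1 hv1).2⟩
        obtain ⟨v, hv1, hv2⟩ := key u0 (mem_filter.1 hu0).2
        have h1 : (W.filter fun u => ι u = k) ⊆
            W.filter fun u => Relation.ReflTransGen R u v := by
          intro u hu
          rw [mem_filter] at hu
          obtain ⟨v', h3, h4⟩ := key u hu.2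
          have h5 : v' = v := Fin.ext (h3.trans hv1.symm)
          rw [h5] at h4
          exact mem_filter.2 ⟨hu.1, h4⟩
        have h2 := card_le_card h1
        have h3 := hv v
        omega
    · intro u _ w _ h
      apply le_antisymm
      · refine Finset.sup_le (fun x hx => ?_)
        have hx' := (mem_filter.1 hx).2
        by_cases hxu : x = u
        · rw [hxu]
          have h1 : u.val ≤ w.val := Fin.le_def.1 (hR _ _ h).2.le
          refine h1.trans ?_
          exact Finset.le_sup (f := fun v : Fin s => v.val)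
            (mem_filter.2 ⟨mem_univ w, Relation.ReflTransGen.refl⟩)
        · exact Finset.le_sup (f := fun v : Fin s => v.val)
            (mem_filter.2 ⟨mem_univ x, (T_iff R π hR h hxu).1 hx'⟩)
      · refine Finset.sup_le (fun x hx => ?_)
        have hx' := (mem_filter.1 hx).2
        exact Finset.le_sup (f := fun v : Fin s => v.val)
          (mem_filter.2 ⟨mem_univ x, Relation.ReflTransGen.head h hx'⟩)

end Pool.Agent.W816.Pw.TREE
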